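import Pool.Agent.Lib.MP_6c3d62_pr.Mg.G076

/-! A10b: the product `bet` and the arithmetic of the induction. Only real numbers. -/

open Finset

namespace Pool.Agent.Stirring.HP

/-- The bound for the states for which only `Q1` is known. -/
noncomputable def hb (A k P : ℝ) (M : ℕ) : ℝ := A * P ^ 2 * bet (M - 1) + 2 * (P + 3 * k) / M

/-- The arithmetic of the induction step, `P = phi + 200`. Let `b = bet M`, `b1 = bet (M - 1)`, so
`b = b1 (1 - 1 / (4 M))`, `bet (M + 1) = b (1 - 1 / (4 (M + 1)))`, `R = 2 M + 1`. Suppose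
`A P² bet (M + 1) < 2`. Then `A P² b < 8 / 3`; by `bet_lower` `P⁴ A² / (M + 1) ≤ (8 / 3)²`, so
`M + 1 ≥ A² P⁴ (9 / 64)` is enormous compared with `P`, `k ≤ A`: every term with `1 / M` is
negligible. It is to be shown that
`k A' (P + 6)² b + (P + k) (A P² (b1 - b) + 2 (P + 3 k) / M) +
 3 (A ((P + 4)² b1 - P² b) + 2 (P + 4 + 3 k) / M) ≤ A P² b (k - R / (4 (M + 1)))`
and the right side is `≥ A P² b (k - 1 / 2) ≥ (3 / 4) k A P² b`. The quotients of the terms on the left by
`A P² b` are: `k A' (1.03)² / A ≤ 0.11 k`; `b1 - b = b1 / (4 M)` gives `(P + k) / (4 M - 1)`,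
negligible; `2 (P + k) (P + 3 k) / (M A P² b)`, negligible as `b ≥ (M + 1)^(-1/2)`;
`3 ((1.02)² b1 / b - 1) ≤ 0.13`; `6 (P + 4 + 3 k) / (M A P² b)`, negligible. By computer the
quotient of the two sides is at most `0.22`. -/
theorem arith_step {k A' A P : ℝ} {M : ℕ} (hk : 2 ≤ k) (hA' : 1 ≤ A')
    (hA : 10 * A' + 64 * (1 + 3 * k) ^ 2 ≤ A) (hP : 200 ≤ P) (hM : 1 ≤ M)
    (hlt : A * P ^ 2 * bet (M + 1) < 2) :
    (k * (A' * (P + 6) ^ 2 * bet M) + (2 * M + 1 - k) * (A * P ^ 2 * bet M) +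
      (P + k) * (hb A k P M - A * P ^ 2 * bet M) +
      3 * (hb A k (P + 4) M - A * P ^ 2 * bet M)) / (2 * M + 1) ≤ A * P ^ 2 * bet (M + 1) := by
  have hbpos := bet_pos M
  have hb1 := bet_le_one M
  have hlow := bet_lower M
  obtain ⟨N, rfl⟩ : ∃ N, M = N + 1 := ⟨M - 1, by omega⟩
  have hs := bet_succ (N + 1)
  have hs1 := bet_succ N
  have hN : ((N + 1 : ℕ) : ℝ) = (N : ℝ) + 1 := by push_cast; ring
  have hb1pos := bet_pos N
  simp only [hb, Nat.add_sub_cancel]
  rw [hs] at hlt ⊢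
  rw [hN] at hlt hlow ⊢
  clear hs hN
  generalize bet (N + 1) = b at *
  generalize bet N = b1 at *
  have hm1 : (1 : ℝ) ≤ (N : ℝ) + 1 := by
    have : (0 : ℝ) ≤ (N : ℝ) := Nat.cast_nonneg N
    linarith
  generalize (N : ℝ) + 1 = m at *
  clear hM
  -- the number `D`
  have hAbig : 3146 ≤ A := by nlinarith
  have hAk : 1000 * k ≤ A := by nlinarith
  have hAA : A' ≤ A / 10 := by nlinarith [sq_nonneg (1 + 3 * k)]
  obtain ⟨D, hD⟩ : ∃ D, D = A * P ^ 2 := ⟨_, rfl⟩
  have hDP : 629200 * P ≤ D := by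
    have : 629200 * P ≤ 3146 * P ^ 2 := by nlinarith
    have h2 : 3146 * P ^ 2 ≤ A * P ^ 2 := mul_le_mul_of_nonneg_right hAbig (by positivity)
    linarith
  have hDA : 40000 * A ≤ D := by
    have h2 : A * 40000 ≤ A * P ^ 2 := mul_le_mul_of_nonneg_left (by nlinarith) (by linarith)
    linarith
  have hDpos : 0 < D := by linarith
  have hbD : b * D ≤ 16 / 7 := by
    have h3 : 1 - 1 / (4 * (m + 1)) ≥ 7 / 8 := by
      have : 1 / (4 * (m + 1)) ≤ 1 / 8 := by
        apply one_div_le_one_div_of_le <;> linarith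
      linarith
    have h4 : D * b * (7 / 8) ≤ D * (b * (1 - 1 / (4 * (m + 1)))) := by
      have : 0 < D * b := by positivity
      nlinarith
    rw [← hD] at hlt
    nlinarith
  -- `m b ≥ 3 D / 16`
  have hmb : 3 * D / 16 ≤ m * b := by
    have h5 : 1 ≤ (m + 1) * b ^ 2 := by
      rw [div_le_iff₀ (by linarith)] at hlow
      linarith
    have h6 : 1 / 2 ≤ m * b ^ 2 := by
      have : (m + 1) * b ^ 2 ≤ (2 * m) * b ^ 2 := mul_le_mul_of_nonneg_right (by linarith) (by positivity)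
      linarith
    have h7 : (3 * D / 16) * b ≤ (m * b) * b := by nlinarith
    exact le_of_mul_le_mul_right h7 hbpos
  have hm : 3 * D / 16 ≤ m := by
    have : m * b ≤ m * 1 := mul_le_mul_of_nonneg_left hb1 (by linarith)
    linarith
  have hmpos : 0 < m := by linarith
  have hDb : 0 < D * b := by positivity
  -- `b1 ≤ b (1 + 1 / 10000)`, better
  have hbb : b1 * (4 * m - 1) = b * (4 * m) := by
    rw [hs1]
    field_simp
  have hbb1 : (b1 - b) * (4 * m - 1) = b := by linarith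
  have hbb0 : 0 ≤ b1 - b := by
    by_contra h
    push Not at h
    nlinarith
  have hb12 : (P + k) * (b1 - b) ≤ b / 100 := by
    have h8 : 100 * (P + k) ≤ 4 * m - 1 := by linarith
    have h9 : (b1 - b) * (100 * (P + k)) ≤ (b1 - b) * (4 * m - 1) :=
      mul_le_mul_of_nonneg_left h8 hbb0
    linarith
  have hb13 : 10000 * (b1 - b) ≤ b := by
    have h8 : 10000 ≤ 4 * m - 1 := by linarith
    have h9 : (b1 - b) * 10000 ≤ (b1 - b) * (4 * m - 1) :=
      mul_le_mul_of_nonneg_left h8 hbb0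
    linarith
  -- the terms
  have hT1 : k * (A' * (P + 6) ^ 2 * b) ≤ 107 / 1000 * k * (D * b) := by
    have h10 : (P + 6) ^ 2 ≤ 107 / 100 * P ^ 2 := by nlinarith
    have h11 : A' * (P + 6) ^ 2 ≤ A / 10 * (107 / 100 * P ^ 2) :=
      mul_le_mul hAA h10 (by positivity) (by linarith)
    have h12 : A' * (P + 6) ^ 2 * b ≤ (107 / 1000 * D) * b := by
      apply mul_le_mul_of_nonneg_right _ hbpos.le
      rw [hD]; linarith
    have h13 := mul_le_mul_of_nonneg_left h12 (show (0 : ℝ) ≤ k by linarith)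
    linarith
  have hT2 : (P + k) * (D * b1 - D * b) ≤ D * b / 100 := by
    have := mul_le_mul_of_nonneg_left hb12 hDpos.le
    linarith
  have hT4 : 3 * (A * (P + 4) ^ 2 * b1 - D * b) ≤ 13 / 100 * (D * b) := by
    have h10 : (P + 4) ^ 2 ≤ 10404 / 10000 * P ^ 2 := by nlinarith
    have h11 : A * (P + 4) ^ 2 ≤ 10404 / 10000 * D := by
      have := mul_le_mul_of_nonneg_left h10 (show (0 : ℝ) ≤ A by linarith)
      rw [hD]; linarith
    have h12 : A * (P + 4) ^ 2 * b1 ≤ 10404 / 10000 * D * (b * (10001 / 10000)) :=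
      mul_le_mul h11 (by linarith) hb1pos.le (by positivity)
    nlinarith
  have hfrac : ∀ W : ℝ, 0 ≤ W → W ≤ D * D / 1000 → W / m ≤ D * b / 100 := by
    intro W _ hW
    rw [div_le_iff₀ hmpos]
    have := mul_le_mul_of_nonneg_left hmb hDpos.le
    nlinarith
  have hkP : P + 3 * k ≤ D / 100000 := by linarith
  have hkP0 : 0 ≤ P + 3 * k := by linarith
  have hT3 : 2 * (P + k) * (P + 3 * k) / m ≤ D * b / 100 := by
    apply hfrac
    · have : 0 ≤ P + k := by linarith
      positivity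
    · have : (P + k) * (P + 3 * k) ≤ (D / 100000) * (D / 100000) :=
        mul_le_mul (by linarith) hkP hkP0 (by positivity)
      nlinarith
  have hT5 : 6 * (P + 4 + 3 * k) / m ≤ D * b / 100 := by
    apply hfrac
    · linarith
    · nlinarith
  -- the right-hand side
  have hR : (k - 1 / 2) * (D * b) + (2 * m + 1 - k) * (D * b) ≤
      (A * P ^ 2 * (b * (1 - 1 / (4 * (m + 1))))) * (2 * m + 1) := by
    have h14 : (2 * m + 1) * (1 / (4 * (m + 1))) ≤ 1 / 2 := by
      rw [mul_one_div, div_le_iff₀ (by linarith)]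
      linarith
    have h15 := mul_le_mul_of_nonneg_right h14 hDb.le
    rw [← hD]
    nlinarith
  rw [div_le_iff₀ (by linarith)]
  refine le_trans ?_ hR
  rw [← hD]
  have e1 : (P + k) * (D * b1 + 2 * (P + 3 * k) / m - D * b) =
      (P + k) * (D * b1 - D * b) + 2 * (P + k) * (P + 3 * k) / m := by ring
  have e2 : 3 * (A * (P + 4) ^ 2 * b1 + 2 * (P + 4 + 3 * k) / m - D * b) =
      3 * (A * (P + 4) ^ 2 * b1 - D * b) + 6 * (P + 4 + 3 * k) / m := by ring
  rw [e1, e2]
  nlinarith [mul_le_mul_of_nonneg_right hk hDb.le]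

end Pool.Agent.Stirring.HP
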