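import Pool.Agent.Lib.MP_6c3d62_pr.HP.C6
import Pool.Agent.Lib.MP_6c3d62_pr.HierTight

/-! Recurrent rates: the ordered cycle lengths divided by the number of vertices tend to zero, with
all expectations of continuous functions of them, and the cycle lengths are tight. -/

open Finset Filter Topology

namespace Pool.Agent.Stirring.HP

open Pool.Agent.Stirring.Hier

variable {N : ℕ} {g : ℕ → ℝ} {t ρ : ℝ}

theorem rec_relLen_nonneg {V : Type*} [Fintype V] [DecidableEq V] (σ : Equiv.Perm V) (i : ℕ) :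
    0 ≤ relLen σ i := by
  unfold relLen
  positivity

theorem rec_relLen_le_one {V : Type} [Fintype V] [DecidableEq V] [Nonempty V]
    (σ : Equiv.Perm V) (i : ℕ) : relLen σ i ≤ 1 := by
  by_contra h
  rw [not_le] at h
  have hpos : 0 < relLen σ i := zero_lt_one.trans h
  obtain ⟨s, hs1, hs2, -⟩ := (relLen_ge σ i hpos).mp le_rfl
  obtain ⟨x, hx⟩ := Finset.card_pos.mp (by omega : 0 < s.card)
  have h1 := hs2 x hx
  have hn : (0 : ℝ) < (Fintype.card V : ℝ) := by exact_mod_cast Fintype.card_pos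
  have h2 : (cycLen σ x : ℝ) ≤ Fintype.card V := by
    unfold cycLen
    rw [Nat.card_eq_fintype_card]
    exact_mod_cast Fintype.card_subtype_le _
  nlinarith

/-- No cycle of positive density. -/
theorem rec_prob (hN : 2 ≤ N) (hg : ∀ j, 0 < g j) (hρN : ρ < N)
    (hρ : ∀ j, g (j + 1) ≤ ρ * g j) (hs : ¬ Summable fun j => 1 / g j) (ht : 0 ≤ t)
    (i : ℕ) {ε : ℝ} (hε : 0 < ε) :
    Tendsto (fun K : ℕ => hprob N K g t {σ | ε ≤ relLen σ i}) atTop (𝓝 0) := by
  have hNe : NeZero N := ⟨by omega⟩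
  have hgn : ∀ j, 0 ≤ g j := fun j => (hg j).le
  have h1 := recurrent_case hN hg hρN hρ hs ht hε
  refine squeeze_zero (fun K => ?_) (fun K => ?_) h1
  · unfold hprob
    rw [hexpect_eq]
    have h3 := EL_mono (N := N) (K := K) hgn ht K (f := fun _ => 0)
      (h := ind {σ : Equiv.Perm (Word N K) | ε ≤ relLen σ i}) (fun σ _ => ind_nonneg _ σ)
    rwa [EL_const] at h3
  · unfold hprob
    rw [hexpect_eq, hexpect_eq]
    refine EL_mono (N := N) (K := K) hgn ht K (fun σ _ => ?_)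
    refine Set.indicator_le_indicator_of_subset ?_ (fun _ => zero_le_one) σ
    intro τ hτ
    obtain ⟨s, hs1, hs2, -⟩ := (relLen_ge τ i hε).mp hτ
    obtain ⟨x, hx⟩ := Finset.card_pos.mp (by omega : 0 < s.card)
    refine ⟨x, ?_⟩
    have := hs2 x hx
    rwa [card_word] at this

/-- A function which is small where the first `r` relative lengths are small. -/
theorem rec_small (hgn : ∀ j, 0 ≤ g j) (ht : 0 ≤ t) {K r : ℕ} {ε δ M : ℝ}
    (hδ : 0 ≤ δ) (hM : 0 ≤ M) (F : Equiv.Perm (Word N K) → ℝ) (h1 : ∀ σ, |F σ| ≤ M)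
    (h2 : ∀ σ, (∀ i < r, relLen σ i < ε) → |F σ| ≤ δ) :
    |hexpect N K g t F| ≤ δ + M * ∑ i ∈ range r, hprob N K g t {σ | ε ≤ relLen σ i} := by
  have key : ∀ σ : Equiv.Perm (Word N K), |F σ| ≤ δ +
      M * ∑ i ∈ range r, ind {σ : Equiv.Perm (Word N K) | ε ≤ relLen σ i} σ := by
    intro σ
    by_cases h : ∀ i < r, relLen σ i < ε
    · have h3 : 0 ≤ M * ∑ i ∈ range r, ind {σ : Equiv.Perm (Word N K) | ε ≤ relLen σ i} σ :=
        mul_nonneg hM (Finset.sum_nonneg fun i _ => ind_nonneg _ σ)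
      linarith [h2 σ h]
    · push Not at h
      obtain ⟨i, hi, hi2⟩ := h
      have h3 : ind {σ : Equiv.Perm (Word N K) | ε ≤ relLen σ i} σ = 1 := by
        unfold ind
        rw [Set.indicator_of_mem (by exact hi2)]
      have h4 : (1 : ℝ) ≤ ∑ i ∈ range r,
          ind {σ : Equiv.Perm (Word N K) | ε ≤ relLen σ i} σ := by
        rw [← h3]
        exact Finset.single_le_sum
          (f := fun i => ind {σ : Equiv.Perm (Word N K) | ε ≤ relLen σ i} σ)
          (fun i _ => ind_nonneg _ σ) (Finset.mem_range.mpr hi)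
      nlinarith [h1 σ]
  have hR : EL N K g t K (fun σ => δ +
      M * ∑ i ∈ range r, ind {σ : Equiv.Perm (Word N K) | ε ≤ relLen σ i} σ) =
      δ + M * ∑ i ∈ range r, hprob N K g t {σ | ε ≤ relLen σ i} := by
    rw [EL_add g t K (fun _ => δ)
      (fun σ => M * ∑ i ∈ range r, ind {σ : Equiv.Perm (Word N K) | ε ≤ relLen σ i} σ),
      EL_const, EL_mul g t K M
        (fun σ => ∑ i ∈ range r, ind {σ : Equiv.Perm (Word N K) | ε ≤ relLen σ i} σ),
      EL_sum g t K (range r) (fun i => ind {σ : Equiv.Perm (Word N K) | ε ≤ relLen σ i})]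
    congr 2
    refine Finset.sum_congr rfl fun i _ => ?_
    unfold hprob
    rw [hexpect_eq]
    rfl
  rw [hexpect_eq, abs_le]
  constructor
  · have h3 := EL_mono (N := N) (K := K) hgn ht K (f := fun σ => (-1) * F σ) (h := fun σ => δ +
      M * ∑ i ∈ range r, ind {σ : Equiv.Perm (Word N K) | ε ≤ relLen σ i} σ) (fun σ _ => by
        have := key σ
        rw [abs_le] at this
        show (-1) * F σ ≤ δ + M * ∑ i ∈ range r, ind {σ : Equiv.Perm (Word N K) | ε ≤ relLen σ i} σ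
        linarith [this.1])
    rw [EL_mul, hR] at h3
    linarith
  · have h3 := EL_mono (N := N) (K := K) hgn ht K (f := F) (h := fun σ => δ +
      M * ∑ i ∈ range r, ind {σ : Equiv.Perm (Word N K) | ε ≤ relLen σ i} σ) (fun σ _ =>
        (le_abs_self _).trans (key σ))
    rwa [hR] at h3

/-- The law of the relative lengths tends to the point mass at zero. -/
theorem rec_law (hN : 2 ≤ N) (hg : ∀ j, 0 < g j) (hρN : ρ < N)
    (hρ : ∀ j, g (j + 1) ≤ ρ * g j) (hs : ¬ Summable fun j => 1 / g j) (ht : 0 ≤ t)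
    {r : ℕ} {f : (Fin r → ℝ) → ℝ} (hf : Continuous f) {δ : ℝ} (hδ : 0 < δ) :
    ∀ᶠ K : ℕ in atTop, |hexpect N K g t (fun σ => f (fun i => relLen σ i) - f 0)| ≤ δ := by
  have hNe : NeZero N := ⟨by omega⟩
  have hgn : ∀ j, 0 ≤ g j := fun j => (hg j).le
  -- a bound on the cube
  obtain ⟨M, hM⟩ : ∃ M : ℝ, ∀ x ∈ Set.Icc (0 : Fin r → ℝ) 1, |f x - f 0| ≤ M := by
    have hc : IsCompact (Set.Icc (0 : Fin r → ℝ) 1) := isCompact_Icc
    obtain ⟨C, hC⟩ := hc.exists_bound_of_continuousOn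
      (f := fun x => f x - f 0) (hf.sub continuous_const).continuousOn
    exact ⟨C, fun x hx => by simpa [Real.norm_eq_abs] using hC x hx⟩
  have hM0 : 0 ≤ M := (abs_nonneg _).trans (hM 0 ⟨le_rfl, fun i => zero_le_one⟩)
  -- continuity at zero
  obtain ⟨ε, hε, hε2⟩ := Metric.continuous_iff.mp hf 0 (δ / 2) (half_pos hδ)
  have h1 : Tendsto (fun K : ℕ => δ / 2 + M * ∑ i ∈ range r,
      hprob N K g t {σ | ε / 2 ≤ relLen σ i}) atTop (𝓝 (δ / 2 + M * ∑ i ∈ range r, 0)) :=
    tendsto_const_nhds.add (tendsto_const_nhds.mul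
      (tendsto_finsetSum _ fun i _ => rec_prob hN hg hρN hρ hs ht i (half_pos hε)))
  rw [Finset.sum_const_zero, mul_zero, add_zero] at h1
  have h2 : ∀ᶠ K : ℕ in atTop, δ / 2 + M * ∑ i ∈ range r,
      hprob N K g t {σ | ε / 2 ≤ relLen σ i} < δ := h1.eventually_lt_const (half_lt_self hδ)
  filter_upwards [h2] with K hK
  refine (rec_small (r := r) (ε := ε / 2) hgn ht (half_pos hδ).le hM0 _ (fun σ => ?_)
    (fun σ hσ => ?_)).trans hK.le
  · exact hM _ ⟨fun i => rec_relLen_nonneg σ i, fun i => rec_relLen_le_one σ i⟩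
  · have h3 : dist (fun i : Fin r => relLen σ (i : ℕ)) 0 < ε := by
      rw [dist_pi_lt_iff hε]
      intro i
      rw [Pi.zero_apply, Real.dist_eq, sub_zero, abs_of_nonneg (rec_relLen_nonneg σ i)]
      linarith [hσ i i.2]
    have h4 := hε2 _ h3
    rw [Real.dist_eq] at h4
    exact h4.le

theorem rec_len_close (hN : 2 ≤ N) (hg : ∀ j, 0 < g j) (hρN : ρ < N)
    (hρ : ∀ j, g (j + 1) ≤ ρ * g j) (hs : ¬ Summable fun j => 1 / g j) (ht : 0 ≤ t)
    {r : ℕ} {f : (Fin r → ℝ) → ℝ} (hf : Continuous f) {δ : ℝ} (hδ : 0 < δ) :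
    ∃ n₀ : ℕ, ∀ n : ℕ, n₀ ≤ n → ∀ᶠ K : ℕ in atTop,
      |hexpect N K g t (fun σ => f fun i => relLen σ i) -
        (∑ τ : Equiv.Perm (Fin n), f fun i => (0 : ℝ) * relLen τ i) / (n.factorial : ℝ)| ≤ δ := by
  refine ⟨0, fun n _ => ?_⟩
  filter_upwards [rec_law hN hg hρN hρ hs ht hf hδ] with K hK
  have h1 : (∑ τ : Equiv.Perm (Fin n), f fun i => (0 : ℝ) * relLen τ i) / (n.factorial : ℝ) =
      f 0 := by
    have h2 : ∀ τ : Equiv.Perm (Fin n), (f fun i => (0 : ℝ) * relLen τ i) = f 0 := by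
      intro τ
      congr 1
      funext i
      simp
    rw [Finset.sum_congr rfl fun τ _ => h2 τ, Finset.sum_const, Finset.card_univ,
      Fintype.card_perm, Fintype.card_fin, nsmul_eq_mul]
    have h3 : (n.factorial : ℝ) ≠ 0 := by exact_mod_cast n.factorial_ne_zero
    field_simp
  rw [h1]
  have h2 : hexpect N K g t (fun σ => f fun i => relLen σ i) - f 0 =
      hexpect N K g t (fun σ => f (fun i => relLen σ i) - f 0) := by
    rw [hexpect_eq, hexpect_eq]
    have h3 := EL_add g t K (fun σ : Equiv.Perm (Word N K) => f fun i => relLen σ i)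
      (fun _ => - f 0)
    rw [EL_const] at h3
    simp only [sub_eq_add_neg]
    exact h3.symm
  rw [h2]
  exact hK

theorem rec_sum_limit (hN : 2 ≤ N) (hg : ∀ j, 0 < g j) (hρN : ρ < N)
    (hρ : ∀ j, g (j + 1) ≤ ρ * g j) (hs : ¬ Summable fun j => 1 / g j) (ht : 0 ≤ t) (k : ℕ) :
    Tendsto (fun K => hexpect N K g t fun σ => ∑ i ∈ range k, relLen σ i) atTop (𝓝 0) := by
  rw [Metric.tendsto_atTop']
  intro δ hδ
  have hf : Continuous fun x : Fin k → ℝ => ∑ i, x i :=
    continuous_finsetSum _ fun i _ => continuous_apply i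
  obtain ⟨K₀, hK₀⟩ := eventually_atTop.mp (rec_law hN hg hρN hρ hs ht hf (half_pos hδ))
  refine ⟨K₀, fun K hK => ?_⟩
  have h1 := hK₀ K hK.le
  rw [Real.dist_eq, sub_zero]
  have h2 : (fun σ : Equiv.Perm (Word N K) => (∑ i : Fin k, relLen σ (i : ℕ)) -
      ∑ i : Fin k, (0 : Fin k → ℝ) i) = fun σ => ∑ i ∈ range k, relLen σ i := by
    funext σ
    rw [Fin.sum_univ_eq_sum_range (fun i => relLen σ i) k]
    simp
  rw [h2] at h1
  linarith

/-- Tightness of the cycle lengths. -/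
theorem rec_density (hN : 2 ≤ N) (hg : ∀ j, 0 < g j) (hρN : ρ < N)
    (hρ : ∀ j, g (j + 1) ≤ ρ * g j) (hs : ¬ Summable fun j => 1 / g j) (ht : 0 ≤ t)
    {η : ℝ} (hη : 0 < η) : ∃ l₀ : ℕ, ∀ l : ℕ, l₀ ≤ l → ∀ᶠ K : ℕ in atTop,
      |hexpect N K g t (fun σ => (Nat.card {x : Word N K // l ≤ cycLen σ x} : ℝ)) /
        (N : ℝ) ^ K - 0| ≤ η := by
  classical
  have hgn : ∀ j, 0 ≤ g j := fun j => (hg j).le
  obtain ⟨m, hm⟩ := tight_case hN hg hρN hρ hs ht hη
  refine ⟨m, fun l hl => Eventually.of_forall fun K => ?_⟩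
  have hNr : (0 : ℝ) < N := by
    have : 0 < N := by omega
    exact_mod_cast this
  have hNK : (0 : ℝ) < (N : ℝ) ^ K := by positivity
  have h1 : (fun σ : Equiv.Perm (Word N K) => (Nat.card {x : Word N K // l ≤ cycLen σ x} : ℝ)) =
      fun σ => ∑ x : Word N K, ind {σ : Equiv.Perm (Word N K) | l ≤ cycLen σ x} σ := by
    funext σ
    unfold ind
    simp only [Set.indicator_apply, Set.mem_setOf_eq]
    rw [Finset.sum_boole, Nat.card_eq_fintype_card, Fintype.card_subtype]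
  rw [h1, hexpect_eq, EL_sum g t K univ
    (fun x => ind {σ : Equiv.Perm (Word N K) | l ≤ cycLen σ x})]
  have h2 : ∀ x : Word N K, EL N K g t K (ind {σ : Equiv.Perm (Word N K) | l ≤ cycLen σ x}) ≤ η := by
    intro x
    have h3 := hm K x
    rw [hexpect_eq] at h3
    refine le_trans (EL_mono hgn ht K fun σ _ => ?_) h3
    refine Set.indicator_le_indicator_of_subset ?_ (fun _ => zero_le_one) σ
    intro τ hτ
    exact hl.trans hτ
  have h3 : ∀ x : Word N K,
      0 ≤ EL N K g t K (ind {σ : Equiv.Perm (Word N K) | l ≤ cycLen σ x}) := by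
    intro x
    have h4 := EL_mono (N := N) (K := K) hgn ht K (f := fun _ => 0)
      (h := ind {σ : Equiv.Perm (Word N K) | l ≤ cycLen σ x}) (fun σ _ => ind_nonneg _ σ)
    rwa [EL_const] at h4
  have h4 : ∑ x : Word N K, EL N K g t K (ind {σ : Equiv.Perm (Word N K) | l ≤ cycLen σ x}) ≤
      (N : ℝ) ^ K * η := by
    refine (Finset.sum_le_sum fun x _ => h2 x).trans (le_of_eq ?_)
    rw [Finset.sum_const, Finset.card_univ, nsmul_eq_mul, card_word]
  have h5 : 0 ≤ ∑ x : Word N K, EL N K g t K (ind {σ : Equiv.Perm (Word N K) | l ≤ cycLen σ x}) :=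
    Finset.sum_nonneg fun x _ => h3 x
  rw [sub_zero, abs_of_nonneg (div_nonneg h5 hNK.le), div_le_iff₀ hNK]
  linarith

end Pool.Agent.Stirring.HP
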